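import Pool.Agent.H52.PSR.Targets

set_option autoImplicit false

/-!
Row COC: a large set without singular differences.
-/

namespace Pool.Agent.H70.PSR

open Pool.Agent.H52.PSR

theorem pf_COC (h1 : T_DIAG) : T_COC := by
  intro p H _ E _ _ hp2 hcard
  classical
  have hp : p.Prime := Fact.out
  have h1' := h1 p H E hp2 hcard
  have hH : 1 ≤ H := by
    rcases Nat.eq_zero_or_pos H with h | h
    · exfalso
      rw [h, pow_zero] at hcard
      have := Finite.one_lt_card (α := E)
      omega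
    · exact h
  generalize hn : 8 * H = n at h1' ⊢
  obtain ⟨l, Φ, hl⟩ := h1'
  have hn0 : 0 < n := by omega
  set q := (p - 1) / n with hq
  set s := Nat.sqrt q with hs
  have hs1 : s * s ≤ q := Nat.sqrt_le q
  have hs2 : q < (s + 1) * (s + 1) := Nat.lt_succ_sqrt q
  have hqn : n * q ≤ p - 1 := Nat.mul_div_le (p - 1) n
  have hqn2 : p - 1 < n * (q + 1) := Nat.lt_mul_div_succ (p - 1) hn0
  have hpp := hp.two_le
  have hA1 : n * (s * s) ≤ p - 1 := (Nat.mul_le_mul_left n hs1).trans hqn
  have hA2 : p ≤ n * ((s + 1) * (s + 1)) := by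
    have : n * (q + 1) ≤ n * ((s + 1) * (s + 1)) := Nat.mul_le_mul_left n hs2
    omega
  let g : (Fin n → Fin (s + 1)) → (Fin n → ZMod p) := fun z i => ((z i : ℕ) : ZMod p)
  have key : ∀ z z' : Fin n → Fin (s + 1), z ≠ z' → N8 (Φ (g z) - Φ (g z')) ≠ 0 := by
    intro z z' hz h0
    have h2 := hl (g z - g z')
    rw [map_sub, h0, map_zero] at h2
    set S : ℤ := ∑ i, (((z i : ℕ) : ℤ) - ((z' i : ℕ) : ℤ)) ^ 2 with hS
    have h3 : (S : ZMod p) = 0 := by
      rw [h2, hS]
      push_cast
      rfl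
    have hS0 : 0 < S := by
      obtain ⟨i, hi⟩ : ∃ i, z i ≠ z' i := by
        by_contra hc
        push Not at hc
        exact hz (funext hc)
      rw [hS]
      apply Finset.sum_pos' (fun i _ => sq_nonneg _) ⟨i, Finset.mem_univ i, _⟩
      have : ((z i : ℕ) : ℤ) - ((z' i : ℕ) : ℤ) ≠ 0 := by
        intro h
        apply hi
        apply Fin.ext
        omega
      positivity
    have hS1 : S ≤ ((p - 1 : ℕ) : ℤ) := by
      calc S ≤ ∑ _i : Fin n, ((s * s : ℕ) : ℤ) := by
            apply Finset.sum_le_sum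
            intro i _
            have h4 : ((z i : ℕ) : ℤ) ≤ s := by exact_mod_cast Nat.lt_succ_iff.1 (z i).2
            have h5 : ((z' i : ℕ) : ℤ) ≤ s := by exact_mod_cast Nat.lt_succ_iff.1 (z' i).2
            have h6 : (0 : ℤ) ≤ ((z i : ℕ) : ℤ) := Int.natCast_nonneg _
            have h7 : (0 : ℤ) ≤ ((z' i : ℕ) : ℤ) := Int.natCast_nonneg _
            push_cast
            nlinarith
        _ = ((n * (s * s) : ℕ) : ℤ) := by
            rw [Finset.sum_const, Finset.card_univ, Fintype.card_fin, nsmul_eq_mul]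
            push_cast
            ring
        _ ≤ ((p - 1 : ℕ) : ℤ) := by exact_mod_cast hA1
    have h4 : (p : ℤ) ∣ S := (ZMod.intCast_zmod_eq_zero_iff_dvd S p).1 h3
    have h5 := Int.le_of_dvd hS0 h4
    have h6 : ((p - 1 : ℕ) : ℤ) = (p : ℤ) - 1 := by
      rw [Nat.cast_sub (by omega)]
      simp
    omega
  have hinj : Function.Injective (fun z : Fin n → Fin (s + 1) => Φ (g z)) := by
    intro z z' h
    by_contra hz
    apply key z z' hz
    have h' : Φ (g z) = Φ (g z') := h
    rw [h', sub_self]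
    simp [N8]
  refine ⟨Finset.univ.image (fun z : Fin n → Fin (s + 1) => Φ (g z)), ?_, ?_⟩
  · intro x hx y hy hxy
    obtain ⟨z, -, rfl⟩ := Finset.mem_image.1 hx
    obtain ⟨z', -, rfl⟩ := Finset.mem_image.1 hy
    apply key z z'
    rintro rfl
    exact hxy rfl
  · rw [Finset.card_image_of_injective _ hinj, Finset.card_univ, Fintype.card_fun, Fintype.card_fin,
      Fintype.card_fin]
    calc p ^ (4 * H) ≤ (n * ((s + 1) * (s + 1))) ^ (4 * H) := Nat.pow_le_pow_left hA2 _
      _ = (s + 1) ^ n * n ^ (4 * H) := by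
          rw [mul_pow, mul_pow, ← pow_add, show 4 * H + 4 * H = n by omega, mul_comm]

end Pool.Agent.H70.PSR
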